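import Pool.Agent.Lib.ZX.Blue
import Pool.Agent.Lib.ZL.B_ENV

/-! Project ZL, row ENV2: envelope families for two bounds. -/

open scoped Classical Topology ContDiff ENNReal
open Set MeasureTheory Complex Metric Filter

noncomputable section

namespace Pool.Agent.Lib.ZL

open Pool.Agent.Lib.SV (E)
open Pool.Agent.Lib.HS32 Pool.Agent.Lib.EX Pool.Agent.Lib.EXS

open ENV in
theorem bENV2 (hPW : St_PW) (hMU : St_MU) (hWGT : St_WGT) : St_ENV2 := by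
  intro n M _ ι _ _ D X K C u hu
  obtain ⟨L, -, -, hW⟩ := hWGT
  obtain ⟨hc, hadd, hmul, -, hlse, -⟩ := hW n M ι D
  obtain ⟨-, hmeas, hmono, hfin, -⟩ := hMU n M ι D X
  obtain ⟨-, -, -, -, -, hneg, -, -, -, hcont, -⟩ := hPW n M ι D
  have mono : ∀ ε ε' ρ, 0 < ε → ε ≤ ε' → X.Cl2 K.κ C u ε ρ → X.Cl2 K.κ C u ε' ρ :=
    fun ε ε' ρ h0 h hρ =>
      ⟨⟨hρ.1.1, psh_congr (hadd _ _ hρ.1.2.1 (hmul (ε' - ε) _ (sub_nonneg.2 h) X.αp))
        fun x => by ring, hρ.1.2.2⟩,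
        fun x hx => (hρ.2 x hx).trans (add_le_add le_rfl (hu ε ε' h0 h x hx))⟩
  refine ⟨mono, fun hne => ?_⟩
  have ne : ∀ ε > 0, ∃ σ, X.Cl2 K.κ C u ε σ := by
    intro ε hε
    obtain ⟨C', σ, hσ⟩ := hne ε hε
    have hp : Psh D fun x => (σ x + (C - C')) + ε * X.α x :=
      psh_congr (hadd _ _ hσ.1.2.1 (hc (C - C'))) fun x => by ring
    exact ⟨fun x => σ x + (C - C'), ⟨smo_of hp.1 X.αp.1, hp,
      fun x hx => by have := hσ.1.2.2 x hx; linarith⟩,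
      fun x hx => by have := hσ.2 x hx; linarith⟩
  have soft : ∀ ε σ ρ (N : ℝ), 0 < N → X.Cl2 K.κ C u ε σ → X.Cl2 K.κ C u ε ρ →
      X.Cl2 K.κ C u ε fun x => sm N (σ x) (ρ x) := by
    intro ε σ ρ N hN hσ hρ
    have hp : Psh D fun x => sm N (σ x) (ρ x) + ε * X.α x :=
      psh_congr (hadd _ _ (hmul N⁻¹ _ (inv_pos.2 hN).le (hlse _ _ (hmul N _ hN.le hσ.1.2.1)
        (hmul N _ hN.le hρ.1.2.1))) (hc (-(N⁻¹ * Real.log 2)))) fun x => by
          rw [← sm_add hN]; unfold sm; ring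
    exact ⟨⟨smo_of hp.1 X.αp.1, hp, fun x hx => sm_le hN (hσ.1.2.2 x hx) (hρ.1.2.2 x hx)⟩,
      fun x hx => sm_le hN (hσ.2 x hx) (hρ.2 x hx)⟩
  set s : ℝ → ℝ≥0∞ := fun ε => ⨆ σ, ⨆ _ : X.Cl2 K.κ C u ε σ, X.I fun x => Real.exp (σ x)
    with hs
  have le_s : ∀ ε σ, X.Cl2 K.κ C u ε σ → X.I (fun x => Real.exp (σ x)) ≤ s ε := fun ε σ hσ =>
    le_iSup₂_of_le (f := fun σ (_ : X.Cl2 K.κ C u ε σ) => X.I fun x => Real.exp (σ x)) σ hσ le_rfl
  have smono : ∀ ε ε', 0 < ε → ε ≤ ε' → s ε ≤ s ε' := fun ε ε' h0 h =>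
    iSup₂_le fun σ hσ => le_s ε' σ (mono ε ε' σ h0 h hσ)
  have sfin : ∀ ε, s ε ≠ ⊤ := by
    intro ε
    have hJ := hfin (-K.κ) fun i => by
      have := K.hi i
      simp only [Pi.neg_apply, Kl.κ]
      linarith
    refine ne_top_of_le_ne_top (b := ENNReal.ofReal (Real.exp C) *
      X.I fun x => Real.exp (lw D (-K.κ) x)) (ENNReal.mul_ne_top ENNReal.ofReal_ne_top hJ)
      (iSup₂_le fun σ hσ => ?_)
    rw [← I_mul X (Real.exp_pos C).le]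
    refine hmono _ _ fun x hx => ?_
    rw [hneg, ← Real.exp_add]
    exact Real.exp_le_exp.2 (by have := hσ.1.2.2 x hx; linarith)
  have pick : ∀ ε : ℝ, ∃ ρ, 0 < ε → X.Cl2 K.κ C u ε ρ ∧
      s ε ≤ X.I (fun x => Real.exp (ρ x)) + ENNReal.ofReal ε := by
    intro ε
    by_cases hε : 0 < ε
    swap
    · exact ⟨0, fun h => absurd h hε⟩
    by_contra hcon
    have h1 : ∀ σ, X.Cl2 K.κ C u ε σ → X.I (fun x => Real.exp (σ x)) + ENNReal.ofReal ε < s ε :=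
      fun σ hσ => lt_of_not_ge fun h => hcon ⟨σ, fun _ => ⟨hσ, h⟩⟩
    obtain ⟨σ₀, hσ₀⟩ := ne ε hε
    have h2 : s ε ≤ s ε - ENNReal.ofReal ε :=
      iSup₂_le fun σ hσ => ENNReal.le_sub_of_add_le_right ENNReal.ofReal_ne_top (h1 σ hσ).le
    exact absurd h2 (not_le.2 (ENNReal.sub_lt_self (sfin ε) (ne_of_gt (h1 σ₀ hσ₀).pos)
      (ENNReal.ofReal_pos.2 hε).ne'))
  choose ρ hρ using pick
  refine ⟨ρ, fun ε hε => (hρ ε hε).1, fun η hη => ?_⟩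
  set s₀ : ℝ≥0∞ := ⨅ ε, ⨅ _ : (0 : ℝ) < ε, s ε with hs₀
  have s₀le : ∀ ε > 0, s₀ ≤ s ε := fun ε hε =>
    iInf₂_le_of_le (f := fun ε (_ : (0 : ℝ) < ε) => s ε) ε hε le_rfl
  have h0 : s₀ < s₀ + ENNReal.ofReal (η / 2) :=
    ENNReal.lt_add_right (ne_top_of_le_ne_top (sfin 1) (s₀le 1 one_pos))
      (ENNReal.ofReal_pos.2 (half_pos hη)).ne'
  obtain ⟨ε₁, h1⟩ := iInf_lt_iff.1 h0
  obtain ⟨hε₁, h1⟩ := iInf_lt_iff.1 h1
  refine ⟨min ε₁ (η / 2), lt_min hε₁ (half_pos hη), fun ε hε hle σ hσ => ?_⟩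
  have hr := mono _ _ _ hε hle (hρ ε hε).1
  have key : X.I (fun x => Real.exp (max (σ x) (ρ ε x))) ≤ s (min ε₁ (η / 2)) := by
    have hl : Tendsto (fun N : ℕ => ENNReal.ofReal (Real.exp (((N : ℝ) + 1)⁻¹ * Real.log 2)) *
        s (min ε₁ (η / 2))) atTop (𝓝 (ENNReal.ofReal (Real.exp (0 * Real.log 2)) *
          s (min ε₁ (η / 2)))) := by
      refine ENNReal.Tendsto.mul_const (ENNReal.tendsto_ofReal
        ((Real.continuous_exp.tendsto _).comp (Tendsto.mul_const _ ?_))) (Or.inr (sfin _))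
      simpa only [one_div] using tendsto_one_div_add_atTop_nhds_zero_nat (𝕜 := ℝ)
    rw [zero_mul, Real.exp_zero, ENNReal.ofReal_one, one_mul] at hl
    refine ge_of_tendsto' hl fun N => ?_
    have hN : (0 : ℝ) < N + 1 := by positivity
    refine le_trans ?_ (mul_le_mul_right (le_s _ _ (soft _ σ (ρ ε) _ hN hσ hr)) _)
    rw [← I_mul X (Real.exp_pos _).le]
    refine hmono _ _ fun x _ => ?_
    rw [← Real.exp_add]
    exact Real.exp_le_exp.2 (le_sm hN _ _)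
  have hm : AEMeasurable (fun x => ENNReal.ofReal (Real.exp (ρ ε x))) X.μ :=
    (hmeas ℝ _ (Real.continuous_exp.comp_continuousOn (hcont ℝ _ hr.1.1))).ennreal_ofReal
  have hsum : X.I (fun x => Real.exp (σ x) - Real.exp (ρ ε x)) +
      X.I (fun x => Real.exp (ρ ε x)) = X.I fun x => Real.exp (max (σ x) (ρ ε x)) := by
    unfold Cx.I
    rw [← lintegral_add_right' _ hm]
    simp only [ofReal_split]
  have hf : X.I (fun x => Real.exp (ρ ε x)) ≠ ⊤ := ne_top_of_le_ne_top (sfin _) (le_s _ _ hr)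
  refine (ENNReal.add_le_add_iff_right hf).1 ?_
  have h2 : ENNReal.ofReal ε ≤ ENNReal.ofReal (η / 2) :=
    ENNReal.ofReal_le_ofReal (hle.trans (min_le_right _ _))
  calc _ = _ := hsum
    _ ≤ s ε₁ := key.trans (smono _ _ (hε.trans_le hle) (min_le_left _ _))
    _ ≤ s₀ + ENNReal.ofReal (η / 2) := h1.le
    _ ≤ X.I (fun x => Real.exp (ρ ε x)) + ENNReal.ofReal (η / 2) + ENNReal.ofReal (η / 2) :=
      add_le_add ((s₀le ε hε).trans ((hρ ε hε).2.trans (add_le_add le_rfl h2))) le_rfl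
    _ = _ := by
      rw [add_assoc, ← ENNReal.ofReal_add (half_pos hη).le (half_pos hη).le, add_halves, add_comm]

end Pool.Agent.Lib.ZL
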