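import Pool.Agent.Lib.ZX.Blue
import Pool.Agent.Lib.ZL.B_EXT

/-! Project ZL, block ZX: exceptional poles drop for sections of pulled back bundles. -/

open scoped Classical Topology ContDiff ENNReal
open Set MeasureTheory Complex Metric Filter

noncomputable section

namespace Pool.Agent.Lib.ZL

open Pool.Agent.Lib.SV (E)
open Pool.Agent.Lib.HS32 Pool.Agent.Lib.EX Pool.Agent.Lib.EXS

/-- The same blow-up with the product of the equations. -/
def EXA.comb {n : ℕ} {M : Mf n} {ι : Type} [Fintype ι] [DecidableEq ι] {D : Ad M ι}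
    {k a : ι → ℕ} {ex : Set ι} (B : Bl D k ex) (B' : Bl D a ex) (h : B.W ⊆ B'.W) (j : ℕ) :
    Bl D (fun i => j * k i + a i) ex where
  W := B.W
  N := B.N
  r := B.r
  p := B.p
  τ := B.τ
  e := B.e
  t := B.t
  σ := B.σ ^ j * B'.σ
  v := fun d => B.v d ^ j * B'.v d
  opn := B.opn
  con := B.con
  epos := B.epos
  cpt := B.cpt
  lt := B.lt
  phol := B.phol
  thol := B.thol
  imm := B.imm
  exc := B.exc
  vhol := fun d z hz ho => by
    obtain ⟨a1, a2, a3⟩ := B.vhol d z hz ho
    obtain ⟨b1, b2, b3⟩ := B'.vhol d z hz (h ho)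
    refine ⟨(a1.and b1).mono fun y hy => (hy.1.pow j).mul hy.2,
      mul_ne_zero (pow_ne_zero j a2) b2, ?_⟩
    change D.rd B.σ d z ^ j * D.rd B'.σ d z = B.v d z ^ j * B'.v d z * _
    rw [a3, b3]
    simp only [xm, zpow_natCast, pow_add, mul_comm j, pow_mul, Finset.prod_mul_distrib,
      Finset.prod_pow, mul_pow]
    ring

theorem bEXA : St_EXA := fun _ _ _ _ _ _ _ _ _ _ B B' sub h j _ _ hQ hU b z hz =>
  EXC.polH_mono (fun i => (min_le_right _ _).trans (by simp))
    (EXT.drop (EXA.comb (B b) (B' b) (h b) j) (fun i hi => (hQ i hi).trans (by simp))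
      (fun d y hy _ => hU d y hy) b z hz (sub b z hz))

end Pool.Agent.Lib.ZL
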