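import Pool.Agent.Lib.ZX.Blue
import Pool.Agent.Lib.ZL.B_LWC

/-! Project ZX, row LWL: the curvature of the model metrics is bounded. -/

namespace Pool.Agent.Lib.ZL

theorem bLWL (hTRF : St_TRF) : St_LWL := by
  intro n M _ ι _ _ D X a
  obtain ⟨C, h0, h⟩ := bLWC hTRF n M ι D X a
  exact ⟨C, h0, by simpa only [add_comm] using h⟩

end Pool.Agent.Lib.ZL
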