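import Pool.Agent.Lib.ZX.Blue
import Pool.Agent.Lib.ZL.B_SPL

/-! Project ZL, row SPL2. -/

namespace Pool.Agent.Lib.ZL

theorem bSPL2 (hPW : St_PW) (hMU : St_MU) (hUPB : St_UPB) (hWGT : St_WGT) (hPOG : St_POG)
    (hHOL : St_HOL) (hSV : St_SV2) (hSUP : St_SUP) : St_SPL2 := fun s s0 J J0 => by
  obtain ⟨η, η0, A, h⟩ := SPL.gen hPW hMU hUPB hWGT hPOG hHOL hSUP s s0 J J0
  exact ⟨η, η0, A, fun n M _ ι _ _ D X K C u j ρ hk hB hρ hJ hT U hU => h n M ι D X K C j ρ hk hρ.1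
    hJ U hU (hSV n M ι D X K C J η u j ρ U (by linarith) J0 hB hρ hJ hT hU)⟩

end Pool.Agent.Lib.ZL
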