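import Pool.Agent.Lib.ZX.Blue
import Pool.Agent.Lib.ZL.B_SUP

/-! Project ZL, block ZX: the uniform bound with the smaller poles. -/

open scoped Classical Topology ContDiff ENNReal
open Set MeasureTheory Complex Metric Filter

set_option linter.unusedSectionVars false

noncomputable section

namespace Pool.Agent.Lib.ZL

open Pool.Agent.Lib.SV (E)
open Pool.Agent.Lib.HS32 Pool.Agent.Lib.EX Pool.Agent.Lib.EXS

namespace SUPX

variable {n : ℕ} {ι : Type} [Fintype ι] [DecidableEq ι] {c : ι → Option (Fin n)}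

theorem torus {s : E n → ℂ} (hs : DifferentiableOn ℂ s (B2 n)) {z : E n} (hz : ‖z‖ ≤ 5 / 4)
    (S : Finset (Fin n)) : ∃ y : E n, ‖y‖ ≤ 5 / 4 ∧ (∀ l ∈ S, ‖y l‖ = 5 / 4) ∧ ‖s z‖ ≤ ‖s y‖ := by
  induction S using Finset.induction_on with
  | empty => exact ⟨z, hz, by simp, le_rfl⟩
  | insert l S hl ih =>
    obtain ⟨y, y1, y2, y3⟩ := ih
    have nb : ∀ t : ℂ, ‖t‖ ≤ 5 / 4 → ‖Function.update y l t‖ ≤ 5 / 4 := fun t ht =>
      (pi_norm_le_iff_of_nonneg (by norm_num)).2 fun i => by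
        rcases eq_or_ne i l with rfl | h
        · rwa [Function.update_self]
        · rw [Function.update_of_ne h]
          exact (norm_le_pi_norm y i).trans y1
    have cl : closure (ball (0 : ℂ) (5 / 4)) = closedBall 0 (5 / 4) := closure_ball _ (by norm_num)
    have d : DifferentiableOn ℂ (fun t : ℂ => s (Function.update y l t))
        (closure (ball (0 : ℂ) (5 / 4))) := by
      rw [cl]
      refine hs.comp (fun t _ => (hasDerivAt_update y l t).differentiableAt.differentiableWithinAt)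
        fun t ht => mem_ball_zero_iff.2 ((nb t (mem_closedBall_zero_iff.1 ht)).trans_lt (by norm_num))
    obtain ⟨t, t1, t2⟩ := exists_mem_frontier_isMaxOn_norm isBounded_ball
      (nonempty_ball.2 (by norm_num)) d.diffContOnCl
    rw [frontier_ball _ (by norm_num), mem_sphere_zero_iff_norm] at t1
    refine ⟨Function.update y l t, nb t t1.le, fun i hi => ?_, y3.trans ?_⟩
    · rcases eq_or_ne i l with rfl | h
      · rwa [Function.update_self]
      · rw [Function.update_of_ne h]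
        exact y2 i ((Finset.mem_insert.1 hi).resolve_left h)
    · have := t2 (a := y l) (by
        rw [cl]
        exact mem_closedBall_zero_iff.2 ((norm_le_pi_norm y l).trans y1))
      simpa using this

theorem on_torus {y : E n} (hy : ∀ l, ‖y l‖ = 5 / 4) :
    Off c y ∧ ∀ a : ι → ℝ, xr c a y ≤ Real.exp (∑ i, |a i|) := by
  have p : ∀ i, 1 ≤ normSq (xi c i y) ∧ normSq (xi c i y) ≤ Real.exp 1 := fun i => by
    have e1 : (2 : ℝ) ≤ Real.exp 1 := by linarith [Real.add_one_le_exp 1]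
    rcases MON.xi_cases c i with ⟨-, e⟩ | ⟨j, -, e⟩ <;> rw [e]
    · simp only [map_one]
      exact ⟨le_rfl, by linarith⟩
    · simp only [normSq_eq_norm_sq, hy]
      exact ⟨by norm_num, by linarith⟩
  refine ⟨fun i h => ?_, fun a => ?_⟩
  · have := (p i).1
    rw [h, map_zero] at this
    linarith
  · rw [xr, Real.exp_sum]
    refine Finset.prod_le_prod (fun i _ => Real.rpow_nonneg (normSq_nonneg _) _) fun i _ => ?_
    refine (Real.rpow_le_rpow_of_exponent_le (p i).1 (le_abs_self _)).trans ?_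
    refine (Real.rpow_le_rpow (normSq_nonneg _) (p i).2 (abs_nonneg _)).trans ?_
    rw [← Real.exp_mul, one_mul]

end SUPX

open SUP SUPX in
theorem bSUPX (hPW : St_PW) (hUPB : St_UPB) (hSUP : St_SUP) : St_SUPX := by
  intro n M _ ι _ _ D X K ν a hZ
  obtain ⟨-, cov, -, -, -, lneg, -, -, lx, -⟩ := hPW n M ι D
  obtain ⟨⟨Cb, hb⟩, -⟩ := hSUP n M ι D X K
  obtain ⟨C0, hα⟩ := X.αb
  have c0 := K.c0
  obtain ⟨C1, c1, h1⟩ := lx (3 / 2) (by norm_num)
  set B := |C0| + C1 * ∑ i, |(X.e i : ℝ)|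
  have B0 : 0 ≤ B := by positivity
  set S := ∑ i, (|ν i / K.c| + |(a i - X.e i : ℝ)| / K.c)
  set T := ∑ i, |(-K.κ) i|
  refine ⟨max Cb (B / K.c + C1 * S + (B / K.c + Cb + C1 * T + T + S)), fun C' hC =>
    ⟨hb C' ((le_max_left _ _).trans hC), fun j hj U hU x hx => ?_⟩⟩
  have k0 : 0 < K.c * j := c0.trans_le (hc K hj)
  set κ : ι → ℝ := fun i => ν i / K.c + 1 / (K.c * j) * (a i - X.e i) with hκ
  have j0 : (0 : ℝ) < j := by exact_mod_cast hj
  have hQ : ∀ i, ((j * ν i + a i : ℤ) : ℝ) = K.c * j * κ i + X.e i := fun i => by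
    simp only [hκ]
    push_cast
    field_simp
    ring
  have kS : ∑ i, |κ i| ≤ S := Finset.sum_le_sum fun i _ => (abs_add_le _ _).trans (by
    rw [abs_mul, abs_of_pos (one_div_pos.2 k0), one_div_mul_eq_div]
    gcongr
    exact hc K hj)
  obtain ⟨d, xd, x1⟩ := cov x
  obtain ⟨sh, se⟩ := (hUPB n M ι D fun i => j * ν i + a i).2.2.2.2.2.1 (D.c d) (D.rd U d)
    (hZ j U hU.1.1 d)
  generalize val (D.c d) (fun i => j * ν i + a i) (D.rd U d) = s at sh se
  have key : ∀ y : E n, ‖y‖ ≤ 3 / 2 → Off (D.c d) y → (D.e d).symm y ∈ off D ∧ ∃ q, 0 ≤ q ∧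
      ‖s y‖ ^ (2 / (K.c * j)) = q * xr (D.c d) κ y ∧
      q ≤ Real.exp (B / K.c) * D.rd (X.ew (K.c * j) U) d y ∧
      D.rd (X.ew (K.c * j) U) d y ≤ Real.exp (B / K.c) * q := fun y y1 yo => by
    have yB : y ∈ B2 n := mem_ball_zero_iff.2 (by linarith)
    have yx : (D.e d).symm y ∈ off D :=
      (GLU.mem_off (GLU.mem_src d yB)).2 (by rwa [GLU.rinv d yB])
    obtain ⟨a1, a2⟩ := h1 (fun i => X.e i) d y y1 yo
    obtain ⟨b1, b2⟩ := abs_le.1 ((hα _ yx).trans (le_abs_self C0))
    have p := MON.xr_pos (fun i => (X.e i : ℝ)) yo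
    have t := normSq_nonneg (D.rd U d y)
    refine ⟨yx, (xr (D.c d) (fun i => X.e i) y * normSq (D.rd U d y)) ^ (1 / (K.c * j)),
      by positivity, by rw [se y yB yo, root k0 yo hQ],
      cmp (by positivity) (by positivity) B0 c0 (hc K hj) ?_,
      cmp (mul_nonneg t (Real.exp_pos _).le) (by positivity) B0 c0 (hc K hj) ?_⟩
    · rw [mul_left_comm, mul_comm]
      refine mul_le_mul_of_nonneg_left (a1.trans ?_) t
      rw [← Real.exp_add, ← Real.exp_add]
      exact Real.exp_le_exp.2 (by simp only [B, Ad.rd]; linarith)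
    · rw [← mul_assoc, mul_comm (normSq _)]
      refine mul_le_mul_of_nonneg_right ?_ t
      rw [Real.exp_add, mul_assoc]
      refine le_trans ?_ (mul_le_mul_of_nonneg_left a2 (Real.exp_pos _).le)
      rw [← Real.exp_add]
      exact Real.exp_le_exp.2 (by simp only [Ad.rd]; linarith)
  set z := D.e d x
  obtain ⟨y, y1, y2, y3⟩ := torus sh (z := z) (by linarith) Finset.univ
  obtain ⟨yo, yr⟩ := on_torus (c := D.c d) fun l => y2 l (Finset.mem_univ l)
  obtain ⟨yx, q', q0', e', q1, -⟩ := key y (by linarith) yo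
  have s1 : D.rd (X.ew (K.c * j) U) d y ≤ Real.exp (Cb + C1 * T + T) := by
    refine (hb Cb le_rfl j hj U hU _ yx).trans ?_
    rw [sub_eq_add_neg, ← lneg, add_assoc, Real.exp_add, Real.exp_add Cb, Real.exp_add]
    gcongr
    exact (h1 (-K.κ) d y (by linarith) yo).2.trans (by gcongr; exact yr _)
  have s4 : ‖s z‖ ^ (2 / (K.c * j)) ≤ Real.exp (B / K.c + Cb + C1 * T + T + S) := by
    refine (Real.rpow_le_rpow (norm_nonneg _) y3 (by positivity)).trans (e'.le.trans ?_)
    rw [Real.exp_add _ S]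
    refine mul_le_mul (q1.trans ?_) ((yr κ).trans (Real.exp_le_exp.2 kS)) (MON.xr_pos _ yo).le
      (Real.exp_pos _).le
    rw [add_assoc, add_assoc, Real.exp_add, ← add_assoc]
    gcongr
  have zo : Off (D.c d) z := hx d xd
  obtain ⟨-, q, q0, e, -, q2⟩ := key z (by linarith) zo
  have l := (h1 κ d z (by linarith) zo).2
  rw [GLU.rd_e _ xd] at l q2
  have s5 : q * Real.exp (lw D κ x) ≤
      Real.exp (C1 * S) * Real.exp (B / K.c + Cb + C1 * T + T + S) := by
    refine (mul_le_mul_of_nonneg_left l q0).trans ?_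
    rw [mul_left_comm, ← e]
    gcongr
  change _ ≤ Real.exp (C' + -lw D κ x)
  rw [← sub_eq_add_neg, Real.exp_sub, le_div_iff₀ (Real.exp_pos _)]
  refine (mul_le_mul_of_nonneg_right q2 (Real.exp_pos _).le).trans ?_
  rw [mul_assoc]
  refine (mul_le_mul_of_nonneg_left s5 (Real.exp_pos _).le).trans ?_
  rw [← Real.exp_add, ← Real.exp_add]
  exact Real.exp_le_exp.2 (by linarith [le_max_right Cb (B / K.c + C1 * S +
    (B / K.c + Cb + C1 * T + T + S))])

end Pool.Agent.Lib.ZL
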