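import Pool.Agent.Lib.ZX.Blue
import Pool.Agent.Lib.ZL.B_SV

/-! Project ZL, row SV2. -/

open scoped Classical Topology ContDiff ENNReal
open Set MeasureTheory Complex Metric Filter

noncomputable section

namespace Pool.Agent.Lib.ZL

open Pool.Agent.Lib.SV (E)
open Pool.Agent.Lib.HS32 Pool.Agent.Lib.EX Pool.Agent.Lib.EXS
open Pool.Agent.Lib.EXS.K32 (lv)

open SV13 in
theorem bSV2 (hPW : St_PW) (hMU : St_MU) (hUPB : St_UPB) (hWGT : St_WGT) : St_SV2 := by
  obtain ⟨L, -, -, hW⟩ := hWGT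
  intro n M _ ι _ _ D X K C J η u j ρ U hk hJ hBd ⟨hρ, hρ'⟩ hJρ hT hU
  obtain ⟨-, -, -, -, -, -, -, -, -, cS, hS⟩ := hPW n M ι D
  obtain ⟨-, mes, mo, -⟩ := hMU n M ι D X
  obtain ⟨wc, wadd, wsm, wl, -, -, wcg, -⟩ := hW n M ι D
  have hUo := ((hUPB n M ι D (K.P j)).1 U hU.1.1).1
  have j1 : j ≥ 1 := Nat.pos_of_ne_zero fun h => by norm_num [h] at hk
  have hb := hBd.1 j j1 U hU
  have hb' := hBd.2 j j1 U hU
  have hI := hU.2
  generalize K.c * j = k at *
  have k0 : 0 < k := by linarith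
  obtain ⟨t, ht⟩ : ∃ t, t = -Real.log (k * (J + 1)) := ⟨_, rfl⟩
  have t1 : Real.exp t = (k * (J + 1))⁻¹ := by rw [ht, Real.exp_neg, Real.exp_log (by positivity)]
  have t2 : Real.exp t ≤ 1 := by rw [t1]; exact inv_le_one_of_one_le₀ (by nlinarith)
  have pa := wsm (1 / k) _ (by positivity) (wl U _ hUo (wadd _ _ (wsm k _ k0.le hρ.2.1) (wc (k * t))))
  obtain ⟨v, hv⟩ : ∃ v : M.X → ℝ, v = fun x => 1 / k * Real.log (normSq (U x) +
    Real.exp (k * (ρ x + 1 / k * X.α x) + k * t)) - 1 / k * X.α x := ⟨_, rfl⟩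
  have v0 : ∀ x, Real.exp (k * v x) = normSq (U x) * Real.exp (-X.α x) + Real.exp (k * (ρ x + t)) :=
    fun x => e1 (normSq_nonneg _) k0 (by rw [hv])
  have v1 : SmO D v := fun d z hz ho => by
    rw [hv]
    exact (pa.1 d z hz ho).sub (contDiffAt_const.mul (X.αp.1 d z hz ho))
  have v2 : Psh D fun x => v x + 1 / k * X.α x := wcg _ _ pa fun x _ => by rw [hv]; ring
  have v4 : ∀ x w, X.ew k U x ≤ Real.exp w → ρ x ≤ w → v x + -Real.log 2 ≤ w := fun x w b c => by
    have a := e2 (normSq_nonneg _) hk (v0 x)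
    have c := Real.exp_le_exp.2 c
    refine Real.exp_le_exp.1 ?_
    rw [Real.exp_add, Real.exp_neg, Real.exp_log two_pos]
    unfold Cx.ew at b
    nlinarith [mul_le_of_le_one_left (Real.exp_pos (ρ x)).le t2]
  have v3 : ∀ x ∈ off D, v x + -Real.log 2 ≤ C - lw D K.κ x := fun x hx =>
    v4 x _ (hb x hx) (hρ.2.2 x hx)
  refine ⟨v, v1, v2, ?_, ?_, fun x hx => ⟨?_, ?_, ?_⟩⟩
  · have m : AEMeasurable (fun x => ENNReal.ofReal (Real.exp t * Real.exp (ρ x))) X.μ :=
      ((mes ℝ ρ (cS ℝ ρ hρ.1)).exp.const_mul _).ennreal_ofReal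
    calc X.I (fun x => Real.exp (v x))
        ≤ ∫⁻ x, (ENNReal.ofReal (X.ew k U x) + ENNReal.ofReal (Real.exp t * Real.exp (ρ x))) ∂X.μ :=
          lintegral_mono fun x => (ENNReal.ofReal_le_ofReal
            (e2 (normSq_nonneg _) hk (v0 x))).trans ENNReal.ofReal_add_le
      _ = X.I (X.ew k U) + ENNReal.ofReal (Real.exp t) * X.I fun x => Real.exp (ρ x) := by
          rw [lintegral_add_right' _ m, Cx.I, Cx.I, ← lintegral_const_mul' _ _ ENNReal.ofReal_ne_top]
          simp only [ENNReal.ofReal_mul (Real.exp_pos t).le]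
      _ ≤ 1 + ENNReal.ofReal (Real.exp t) * ENNReal.ofReal J := by gcongr
      _ ≤ _ := by
          rw [← ENNReal.ofReal_mul (Real.exp_pos t).le, ENNReal.ofReal_add zero_le_one
            (by positivity), ENNReal.ofReal_one, t1]
          refine add_le_add_right (ENNReal.ofReal_le_ofReal ?_) _
          rw [inv_mul_le_iff₀ (by positivity)]
          field_simp
          linarith
  · have h := hT (fun x => v x + -Real.log 2) ⟨⟨fun d z hz ho => (v1 d z hz ho).add
      contDiffAt_const, wcg _ _ (wadd _ _ v2 (wc (-Real.log 2))) fun x _ => by ring, v3⟩,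
      fun x hx => v4 x _ (hb' x hx) (hρ' x hx)⟩
    rw [ENNReal.ofReal_mul (by norm_num : (0 : ℝ) ≤ 4)]
    refine le_trans ?_ (mul_le_mul_right h _)
    rw [Cx.I, Cx.I, ← lintegral_const_mul' _ _ ENNReal.ofReal_ne_top]
    refine lintegral_mono fun x => ?_
    dsimp only
    split_ifs with c
    · rw [← ENNReal.ofReal_mul (by norm_num)]
      exact ENNReal.ofReal_le_ofReal (e3 c)
    · simp
  · have := Real.log_le_sub_one_of_pos (two_pos (α := ℝ))
    linarith [v3 x hx]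
  · rw [v0]
    exact le_add_of_nonneg_right (Real.exp_pos _).le
  · rw [v0]
    have := Real.exp_le_one_iff.1 t2
    exact add_le_add_right (Real.exp_le_exp.2 (by nlinarith)) _

end Pool.Agent.Lib.ZL
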