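import Pool.Agent.Lib.ZX.Blue
import Pool.Agent.Lib.ZL.B_Z

/-! Project ZL, block ZX: Theorem Z for the smaller class. -/

open scoped Classical Topology ContDiff ENNReal
open Set MeasureTheory Complex Metric Filter

set_option linter.unusedVariables false
set_option linter.unusedSectionVars false

noncomputable section

namespace Pool.Agent.Lib.ZL

open Pool.Agent.Lib.SV (E)
open Pool.Agent.Lib.HS32 Pool.Agent.Lib.EX Pool.Agent.Lib.EXS

theorem bZ2 (hPW : St_PW) (hMU : St_MU) (hU : St_UPB) (hB : St_BAS) (hE : St_ENV2) (hS : St_SPL2)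
    (hI : St_ITR) : St_Z2 := by
  intro n M _ ι _ _ D X K C u ρ hMo hBd hρ s hs
  obtain ⟨-, -, -, -, -, l1, -, -, -, p1, p2⟩ := hPW n M ι D
  obtain ⟨-, m1, m2, m3, -⟩ := hMU n M ι D X
  have j1 : X.I (fun x => Real.exp C * Real.exp (lw D (-K.κ) x)) ≠ ⊤ := by
    unfold Cx.I
    simp only [ENNReal.ofReal_mul (Real.exp_pos C).le]
    rw [lintegral_const_mul' _ _ ENNReal.ofReal_ne_top]
    refine ENNReal.mul_ne_top ENNReal.ofReal_ne_top (m3 _ fun i => ?_)
    have := K.hi i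
    simp only [Pi.neg_apply, Kl.κ]
    linarith
  set J := (X.I fun x => Real.exp C * Real.exp (lw D (-K.κ) x)).toReal with hJ
  have j2 : ∀ ε > 0, X.I (fun x => Real.exp (ρ ε x)) ≤ ENNReal.ofReal J := fun ε hε => by
    rw [hJ, ENNReal.ofReal_toReal j1]
    refine m2 _ _ fun x hx => ?_
    rw [← Real.exp_add, l1, ← sub_eq_add_neg]
    exact Real.exp_le_exp.2 ((hρ.1 ε hε).1.2.2 x hx)
  obtain ⟨η, hη, A, hA⟩ := hS s hs J ENNReal.toReal_nonneg
  obtain ⟨ε₀, hε₀, hT⟩ := hρ.2 η hη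
  obtain ⟨j₀, hj₀⟩ := exists_nat_ge (max (s + 2) (1 / ε₀) / K.c)
  refine ⟨j₀ + 1, Nat.le_add_left 1 j₀, fun j hj => ?_⟩
  have k1 : max (s + 2) (1 / ε₀) ≤ K.c * j := by
    have h1 : (j₀ : ℝ) ≤ j := by exact_mod_cast (Nat.le_succ j₀).trans hj
    rw [mul_comm]
    exact (div_le_iff₀ K.c0).1 (hj₀.trans h1)
  have k2 : s + 2 ≤ K.c * j := (le_max_left _ _).trans k1
  have k0 : 0 < K.c * j := by linarith
  have k3 : 1 / (K.c * j) ≤ ε₀ := (one_div_le k0 hε₀).2 ((le_max_right _ _).trans k1)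
  obtain ⟨r, G, B, B0, hG, hb⟩ := hB n M ι D X K j ((Nat.le_add_left 1 j₀).trans hj)
  have cU : ∀ U, K.Nr j U → ContinuousOn U (off D) := fun U hU' =>
    p1 ℂ U (p2 U ((hU n M ι D (K.P j)).1 U hU'.1.1).1)
  have cα : ContinuousOn X.α (off D) := p1 ℝ _ X.αp.1
  refine ⟨(ENNReal.ofReal J + ENNReal.ofReal B * ∑ a : Fin r, ENNReal.ofReal (4 * A)).toReal,
    1 / (K.c * j), one_div_pos.2 k0, fun ε hε hε1 U hU' => ?_⟩
  rw [ENNReal.ofReal_toReal (ENNReal.add_ne_top.2 ⟨ENNReal.ofReal_ne_top, ENNReal.mul_ne_top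
    ENNReal.ofReal_ne_top (ENNReal.sum_ne_top.2 fun _ _ => ENNReal.ofReal_ne_top)⟩)]
  set b : M.X → ℝ := fun x => (B * (∑ a, normSq (G a x)) * Real.exp (-X.α x)) ^ (1 / (K.c * j))
    with hbd
  have N0 : ∀ x, 0 ≤ B * ∑ a, normSq (G a x) := fun x =>
    mul_nonneg B0 (Finset.sum_nonneg fun a _ => normSq_nonneg _)
  have eb : ∀ V, K.Nr j V → ∀ x, X.ew (K.c * j) V x ≤ b x := fun V hV x =>
    Real.rpow_le_rpow (mul_nonneg (normSq_nonneg _) (Real.exp_pos _).le)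
      (mul_le_mul_of_nonneg_right (hb V hV x) (Real.exp_pos _).le) (one_div_pos.2 k0).le
  have cρ : ContinuousOn (ρ ε) (off D) := p1 ℝ _ (hρ.1 ε hε).1.1
  have cb : ContinuousOn b (off D) := by
    refine ContinuousOn.rpow_const ((continuousOn_const.mul (continuousOn_finsetSum _ fun a _ =>
      continuous_normSq.comp_continuousOn (cU _ (hG a)))).mul cα.neg.rexp) fun x _ => ?_
    exact Or.inr (one_div_pos.2 k0).le
  have cW : ContinuousOn (X.wt (K.c * j) s b (ρ ε)) (off D) :=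
    (cα.neg.rexp.mul ((cb.sup cρ.rexp).rpow_const fun x _ =>
      Or.inl (lt_max_of_lt_right (Real.exp_pos _)).ne')).mul
      (continuousOn_const.mul cρ).neg.rexp
  have W0 : ∀ x, 0 ≤ X.wt (K.c * j) s b (ρ ε) x := fun x =>
    mul_nonneg (mul_nonneg (Real.exp_pos _).le
      (Real.rpow_nonneg (le_max_of_le_right (Real.exp_pos _).le) _)) (Real.exp_pos _).le
  have i1 := hI M.X X.μ {V | K.Nr j V} (X.wt (K.c * j) s b (ρ ε)) A (m1 ℝ _ cW) W0
    (fun V hV => m1 ℂ V (cU V hV))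
    (.of_forall fun x => ⟨√(B * ∑ a, normSq (G a x)), fun V hV =>
      Real.le_sqrt_of_sq_le (Complex.normSq_eq_norm_sq (V x) ▸ hb V hV x)⟩)
    (fun V hV => by
      obtain ⟨F, h1, h2⟩ := hA n M ι D X K C u j (ρ ε) k2 hBd
        ((hE n M ι D X K C u hMo).1 _ _ _ hε hε1 (hρ.1 ε hε)) (j2 ε hε)
        (fun σ hσ => hT ε hε (hε1.trans k3) σ
          ((hE n M ι D X K C u hMo).1 _ _ _ (one_div_pos.2 k0) k3 hσ)) V hV
      exact ⟨F, h1, h2 b fun x _ => eb V hV x⟩)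
  calc X.I (fun x => X.ew (K.c * j) U x ^ (1 + s) * Real.exp (-(s * ρ ε x)))
      ≤ ∫⁻ x, ENNReal.ofReal (Real.exp (ρ ε x)) + ENNReal.ofReal B *
          ∑ a, ENNReal.ofReal (normSq (G a x) * X.wt (K.c * j) s b (ρ ε) x) ∂X.μ := by
        refine lintegral_mono fun x => ?_
        have h1 := Z.pt (r := ρ ε x) hs k0 (Real.rpow_nonneg
          (mul_nonneg (normSq_nonneg (U x)) (Real.exp_pos (-X.α x)).le) _) (N0 x) (eb U hU' x)
        refine (ENNReal.ofReal_le_ofReal h1).trans (ENNReal.ofReal_add_le.trans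
          (add_le_add le_rfl (le_of_eq ?_)))
        rw [← ENNReal.ofReal_sum_of_nonneg fun a _ => mul_nonneg (normSq_nonneg _) (W0 x),
          ← ENNReal.ofReal_mul B0, ← Finset.sum_mul, mul_assoc]
        rfl
    _ = X.I (fun x => Real.exp (ρ ε x)) + ENNReal.ofReal B *
          ∑ a, ∫⁻ x, ENNReal.ofReal (normSq (G a x) * X.wt (K.c * j) s b (ρ ε) x) ∂X.μ := by
        rw [lintegral_add_left' (m1 ℝ _ cρ.rexp).ennreal_ofReal,
          lintegral_const_mul' _ _ ENNReal.ofReal_ne_top, lintegral_finsetSum' _ fun a _ =>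
            (m1 ℝ (fun x => normSq (G a x) * X.wt (K.c * j) s b (ρ ε) x)
              ((continuous_normSq.comp_continuousOn (cU _ (hG a))).mul cW)).ennreal_ofReal]
        rfl
    _ ≤ _ := add_le_add (j2 ε hε)
        (mul_le_mul_right (Finset.sum_le_sum fun a _ => i1 (G a) (hG a)) _)

end Pool.Agent.Lib.ZL
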