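import Pool.Agent.Lib.ZX.Blue
import Pool.Agent.Lib.ZL.B_ZN

/-! Project ZL, block ZX: row ZX. -/

open scoped Classical Topology ContDiff ENNReal
open Set MeasureTheory Complex Metric Filter

noncomputable section

namespace Pool.Agent.Lib.ZL

open Pool.Agent.Lib.SV (E)
open Pool.Agent.Lib.HS32 Pool.Agent.Lib.EX Pool.Agent.Lib.EXS

theorem ZX.core (hPW : St_PW) (hMU : St_MU) (hUPB : St_UPB) (hWGT : St_WGT) (hSUP : St_SUP)
    (hENV : St_ENV2) (hZ : St_Z2) {n : ℕ} {M : Mf n} [M.Cpt] {ι : Type} [Fintype ι]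
    [DecidableEq ι] {D : Ad M ι} (X : Cx D) (K : Kl X) (ν : ι → ℤ) (hν : ν ≤ K.π)
    (hG : ∀ j : ℕ, Gens D fun i => j * ν i + X.e i) (C : ℝ) (u : ℝ → M.X → ℝ) (hu : Mo D u)
    (hC : K.Bd2 C u) (hlo : ∀ ε > 0, ∀ x ∈ off D, -lw D (fun i => ν i / K.c) x ≤ u ε x) :
    ∃ ρ, X.Env2 K.κ C u ρ ∧ ∀ s > (0 : ℝ), ∃ A : ℝ, ∃ ε₁ > (0 : ℝ), ∀ ε > 0, ε ≤ ε₁ →
      X.I (fun x => Real.exp (-((1 + s) * lw D (fun i => ν i / K.c) x) - s * ρ ε x)) ≤
        ENNReal.ofReal A := by
  obtain ⟨-, -, ladd, -, lsm, -, lmono, -, -, hcont, hho⟩ := hPW n M ι D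
  obtain ⟨hoff, hmeas, -, -, -⟩ := hMU n M ι D X
  obtain ⟨L, -, -, hW⟩ := hWGT
  obtain ⟨-, -, pmul, -, -, plog, -, -, -⟩ := hW n M ι D
  clear hW
  obtain ⟨-, hnr, -⟩ := hSUP n M ι D X K
  obtain ⟨-, henv⟩ := hENV n M ι D X K C u hu
  obtain ⟨Ca, hCa⟩ := X.αb
  have hc := K.c0
  have hP : ∀ (j : ℕ) x, lw D (fun i => (((j : ℤ) * ν i + X.e i : ℤ) : ℝ)) x
      = K.c * j * lw D (fun i => ν i / K.c) x + lw D (fun i => X.e i) x := fun j x => by
    have e : (fun i => (((j : ℤ) * ν i + X.e i : ℤ) : ℝ))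
        = (K.c * j) • (fun i => (ν i : ℝ) / K.c) + fun i => (X.e i : ℝ) := by
      funext i
      simp only [Pi.add_apply, Pi.smul_apply, smul_eq_mul]
      push_cast
      field_simp
    rw [e, ladd, lsm]
  have gen : ∀ j : ℕ, ∃ (r : ℕ) (G : Fin r → M.X → ℂ) (B : ℝ), (∀ a, Sp D (K.P j) (G a)) ∧
      (∀ a, Mer D (fun i => j * ν i + X.e i) (G a)) ∧
      ∀ x ∈ off D, Real.exp (-(K.c * j * lw D (fun i => ν i / K.c) x) - lw D (fun i => X.e i) x)
        ≤ B * ∑ a, normSq (G a x) := fun j => by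
    obtain ⟨r, G, B, h1, h2⟩ := (hUPB n M ι D _).2.2.2.2.2.2 (hG j)
    refine ⟨r, G, B, fun a => ⟨(hUPB n M ι D _).2.2.1 _ _ (fun i => ?_) (h1 a).1, (h1 a).2⟩,
      fun a => (h1 a).1, fun x hx => le_trans (le_of_eq ?_) (h2 x hx)⟩
    · exact add_le_add_left (mul_le_mul_of_nonneg_left (hν i) (Int.natCast_nonneg j)) _
    · rw [hP]
      congr 1; ring
  have hcl : ∀ ε > (0 : ℝ), ∃ C' σ, X.Cl2 K.κ C' u ε σ := fun ε hε => by
    obtain ⟨j, hj⟩ := exists_nat_gt (1 / (K.c * ε))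
    have hj0 : (0 : ℝ) < j := lt_trans (by positivity) hj
    have hk : 0 < K.c * j := by positivity
    have hle : 1 / (K.c * j) ≤ ε := by
      rw [div_lt_iff₀ (by positivity)] at hj
      rw [div_le_iff₀ hk]; nlinarith
    obtain ⟨r, G, B, h1, h3, h2⟩ := gen j
    have hpos : ∀ x ∈ off D, 0 < ∑ a, normSq (G a x) := fun x hx => by
      refine lt_of_le_of_ne (Finset.sum_nonneg fun a _ => normSq_nonneg _) fun h0 => ?_
      have := h2 x hx
      rw [← h0, mul_zero] at this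
      exact absurd this (not_le.2 (Real.exp_pos _))
    have hps := pmul _ _ (one_div_pos.2 hk).le
      (plog r G (fun a => ((hUPB n M ι D _).1 _ (h1 a).1).1) hpos)
    choose b hb using fun a => (hUPB n M ι D _).2.2.2.2.1 _ (h3 a)
    have hbd : ∀ x ∈ off D, 1 / (K.c * j) * Real.log (∑ a, normSq (G a x)) - 1 / (K.c * j) * X.α x
        ≤ 1 / (K.c * j) * (Real.log (∑ a, b a) + Ca) - lw D (fun i => ν i / K.c) x := by
      intro x hx
      have a1 : ∑ a, normSq (G a x) ≤ (∑ a, b a) *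
          Real.exp (-lw D (fun i => (((j : ℤ) * ν i + X.e i : ℤ) : ℝ)) x) := by
        rw [Finset.sum_mul]; exact Finset.sum_le_sum fun a _ => hb a x hx
      have a2 : 0 < ∑ a, b a :=
        (mul_pos_iff_of_pos_right (Real.exp_pos _)).1 ((hpos x hx).trans_le a1)
      have a3 := Real.log_le_log (hpos x hx) a1
      rw [Real.log_mul a2.ne' (Real.exp_pos _).ne', Real.log_exp, hP] at a3
      have a4 := (abs_le.1 (hCa x hx)).1
      have a5 : lw D (fun i => ν i / K.c) x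
          = 1 / (K.c * j) * (K.c * j * lw D (fun i => ν i / K.c) x) := by field_simp
      rw [a5, ← mul_sub, ← mul_sub]
      exact mul_le_mul_of_nonneg_left (by linarith) (one_div_pos.2 hk).le
    have hκ : ∀ x, lw D K.κ x ≤ lw D (fun i => ν i / K.c) x :=
      lmono _ _ fun i => div_le_div_of_nonneg_right (Int.cast_le.2 (hν i)) hc.le
    refine ⟨1 / (K.c * j) * (Real.log (∑ a, b a) + Ca), fun x =>
      1 / (K.c * j) * Real.log (∑ a, normSq (G a x)) - 1 / (K.c * j) * X.α x,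
      (hENV n M ι D X K _ u hu).1 _ _ _ (one_div_pos.2 hk) hle
        ⟨⟨fun d z hz ho => ?_, ?_, fun x hx => ?_⟩, fun x hx => ?_⟩⟩
    · exact (hps.1 d z hz ho).sub (contDiffAt_const.mul (X.αp.1 d z hz ho))
    · simpa only [sub_add_cancel] using hps
    · have := hbd x hx
      have := hκ x
      linarith
    · have := hbd x hx
      have := hlo _ (one_div_pos.2 hk) x hx
      linarith
  obtain ⟨ρ, hρ⟩ := henv hcl
  refine ⟨ρ, hρ, fun s hs => ?_⟩
  obtain ⟨j, hj1, hj⟩ := hZ n M ι D X K C u ρ hu hC hρ s hs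
  obtain ⟨A, ε₁, hε₁, hA⟩ := hj j le_rfl
  have hj0 : (0 : ℝ) < j := by exact_mod_cast hj1
  have hk : 0 < K.c * j := by positivity
  obtain ⟨r, G, B, h1, -, h2⟩ := gen j
  choose t ht hN using fun a => hnr j hj1 (G a) (h1 a)
  set B1 : ℝ := r * (|B| * Real.exp Ca * ∑ a, 1 / t a ^ 2) with hB1
  have hB0 : 0 ≤ B1 := by
    have : 0 ≤ ∑ a, 1 / t a ^ 2 := Finset.sum_nonneg fun a _ => by positivity
    positivity
  set B2 : ℝ := (B1 ^ (1 / (K.c * j))) ^ (1 + s) with hB2
  have hB20 : 0 ≤ B2 := by positivity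
  refine ⟨B2 * (r * max A 0), ε₁, hε₁, fun ε hε hle => ?_⟩
  let g : Fin r → M.X → ℝ := fun a x =>
    X.ew (K.c * j) ((t a : ℂ) • G a) x ^ (1 + s) * Real.exp (-(s * ρ ε x))
  have g0 : ∀ a x, 0 ≤ g a x := fun a x => by
    have := normSq_nonneg (((t a : ℂ) • G a) x)
    simp only [g, Cx.ew]
    positivity
  have gm : ∀ a, AEMeasurable (g a) X.μ := fun a => by
    refine hmeas ℝ _ ?_
    have c1 := hcont ℂ _ (hho _ ((hUPB n M ι D _).1 _ (hN a).1.1).1)
    have c2 := hcont ℝ _ X.αp.1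
    have c3 := hcont ℝ _ (hρ.1 ε hε).1.1
    exact ((((continuous_normSq.comp_continuousOn c1).mul c2.neg.rexp).rpow_const
      fun x _ => Or.inr (one_div_pos.2 hk).le).rpow_const
      fun x _ => Or.inr (by linarith)).mul (continuousOn_const.mul c3).neg.rexp
  have key : ∀ x ∈ off D, Real.exp (-((1 + s) * lw D (fun i => ν i / K.c) x) - s * ρ ε x)
      ≤ B2 * ∑ a, g a x := fun x hx => by
    have a4 := (abs_le.1 (hCa x hx)).2
    have a1 : Real.exp (-(K.c * j * lw D (fun i => ν i / K.c) x))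
        ≤ ∑ a, |B| * Real.exp Ca * (normSq (G a x) * Real.exp (-X.α x)) := by
      have b1 : 0 ≤ ∑ a, normSq (G a x) := Finset.sum_nonneg fun a _ => normSq_nonneg _
      have b2 := (h2 x hx).trans (mul_le_mul_of_nonneg_right (le_abs_self B) b1)
      rw [← Finset.mul_sum, ← Finset.sum_mul]
      calc _ ≤ Real.exp ((-(K.c * j * lw D (fun i => ν i / K.c) x) - lw D (fun i => X.e i) x)
            + (Ca + -X.α x)) := Real.exp_le_exp.2 (by linarith)
        _ ≤ (|B| * ∑ a, normSq (G a x)) * (Real.exp Ca * Real.exp (-X.α x)) := by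
            rw [Real.exp_add, Real.exp_add Ca]
            exact mul_le_mul_of_nonneg_right b2 (by positivity)
        _ = _ := by ring
    obtain ⟨a, ha⟩ := ZN.ex_le _ (Real.exp_pos _) a1
    have hta := ht a
    have a2 : normSq (G a x) = 1 / t a ^ 2 * normSq (((t a : ℂ) • G a) x) := by
      rw [Pi.smul_apply, smul_eq_mul, map_mul, normSq_ofReal]; field_simp
    have q0 : 0 ≤ normSq (((t a : ℂ) • G a) x) * Real.exp (-X.α x) :=
      mul_nonneg (normSq_nonneg _) (Real.exp_pos _).le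
    have a3 : 1 / t a ^ 2 ≤ ∑ a, 1 / t a ^ 2 :=
      Finset.single_le_sum (f := fun a => 1 / t a ^ 2) (fun a _ => by positivity)
        (Finset.mem_univ a)
    have a5 : Real.exp (-(K.c * j * lw D (fun i => ν i / K.c) x))
        ≤ B1 * (normSq (((t a : ℂ) • G a) x) * Real.exp (-X.α x)) := by
      refine ha.trans ?_
      rw [a2, hB1, mul_assoc (1 / t a ^ 2), ← mul_assoc (|B| * Real.exp Ca), ← mul_assoc]
      gcongr
    have a6 := ZN.pw_le hk hs hB0 q0 a5
    rw [sub_eq_add_neg, Real.exp_add]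
    calc _ ≤ B2 * g a x := by
          rw [show B2 * g a x = B2 * X.ew (K.c * j) ((t a : ℂ) • G a) x ^ (1 + s)
            * Real.exp (-(s * ρ ε x)) from (mul_assoc _ _ _).symm]
          exact mul_le_mul_of_nonneg_right a6 (Real.exp_pos _).le
      _ ≤ _ := mul_le_mul_of_nonneg_left
          (Finset.single_le_sum (f := fun a => g a x) (fun a _ => g0 a x) (Finset.mem_univ a)) hB20
  calc _ ≤ ∫⁻ x, ENNReal.ofReal B2 * ∑ a, ENNReal.ofReal (g a x) ∂X.μ := by
        refine lintegral_mono_ae (hoff.mono fun x hx => ?_)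
        rw [← ENNReal.ofReal_sum_of_nonneg fun a _ => g0 a x, ← ENNReal.ofReal_mul hB20]
        exact ENNReal.ofReal_le_ofReal (key x hx)
    _ = ENNReal.ofReal B2 * ∑ a, X.I (g a) := by
        rw [lintegral_const_mul' _ _ ENNReal.ofReal_ne_top,
          lintegral_finsetSum' _ fun a _ => (gm a).ennreal_ofReal]
        rfl
    _ ≤ ENNReal.ofReal B2 * ∑ _a : Fin r, ENNReal.ofReal (max A 0) := by
        gcongr with a
        exact (hA ε hε hle _ (hN a)).trans (ENNReal.ofReal_le_ofReal (le_max_left _ _))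
    _ = _ := by
        rw [← ENNReal.ofReal_sum_of_nonneg fun _ _ => le_max_right _ _, ← ENNReal.ofReal_mul hB20,
          Finset.sum_const, Finset.card_univ, Fintype.card_fin, nsmul_eq_mul]

theorem bZX (hPW : St_PW) (hMU : St_MU) (hUPB : St_UPB) (hWGT : St_WGT) (hSUP : St_SUP)
    (hENV2 : St_ENV2) (hZ2 : St_Z2) (hSUPX : St_SUPX) (hLWL : St_LWL) : St_ZX := by
  intro n M _ ι _ _ D X K ν a hν ha hG hzar
  obtain ⟨C, hC⟩ := hSUPX n M ι D X K ν a hzar
  obtain ⟨-, -, ladd, -, lsm, lneg, lmono, lsmo, -, hcont, -⟩ := hPW n M ι D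
  obtain ⟨-, hmeas, hmono, hfin, -⟩ := hMU n M ι D X
  set γ : ι → ℝ := fun i => ν i / K.c with hγ
  set b : ι → ℝ := fun i => (a i : ℝ) - X.e i with hb
  have b0 : ∀ i, 0 ≤ b i := fun i => sub_nonneg.2 (by exact_mod_cast ha i)
  have l0 : ∀ x, lw D b x ≤ 0 := fun x => by
    have h1 := lmono 0 b b0 x
    have h2 : lw D 0 x = 0 := by simp [lw]
    linarith
  have hu : ∀ (ε : ℝ) x, lw D (fun i => ν i / K.c + ε * (a i - X.e i)) x
      = lw D γ x + ε * lw D b x := fun ε x => by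
    rw [← lsm, ← ladd]; rfl
  obtain ⟨ρ, hρ, hI⟩ := ZX.core hPW hMU hUPB hWGT hSUP hENV2 hZ2 X K ν hν hG C _
    (fun ε ε' _ h x _ => by
      rw [hu, hu]
      nlinarith [l0 x]) (hC C le_rfl) (fun ε hε x _ => by
      rw [hu]
      nlinarith [l0 x])
  obtain ⟨C₀, c0, hL⟩ := hLWL n M ι D X b
  obtain ⟨L, -, -, hW⟩ := hWGT
  obtain ⟨-, padd, pmul, -⟩ := hW n M ι D
  clear hW
  have c1 : 0 < 1 + C₀ := by linarith
  refine ⟨C, fun ε x => ρ (ε / (1 + C₀)) x + ε / (1 + C₀) * lw D b x, fun ε hε => ?_,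
    fun s hs => ?_⟩
  · have h0 : 0 < ε / (1 + C₀) := div_pos hε c1
    obtain ⟨⟨h1, h2, -⟩, h4⟩ := hρ.1 _ h0
    refine ⟨fun d z hz ho => (h1 d z hz ho).add (contDiffAt_const.mul (lsmo b d z hz ho)), ?_,
      fun x hx => ?_⟩
    · have e : (fun x => ρ (ε / (1 + C₀)) x + ε / (1 + C₀) * lw D b x + ε * X.α x) = fun x =>
          (ρ (ε / (1 + C₀)) x + ε / (1 + C₀) * X.α x) +
            ε / (1 + C₀) * (lw D b x + C₀ * X.α x) := by
        funext x
        field_simp
        ring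
      rw [e]
      exact padd _ _ h2 (pmul _ _ h0.le hL)
    · have := h4 x hx
      beta_reduce at this ⊢
      rw [hu] at this
      linarith
  · obtain ⟨A, ε₁, h1, hA⟩ := hI (2 * s) (by linarith)
    have hgap : ∀ i, 0 < X.o i + 1 - γ i := fun i => by
      have h2 := K.hi i
      have h3 : γ i ≤ K.π i / K.c :=
        div_le_div_of_nonneg_right (by exact_mod_cast hν i) K.c0.le
      linarith
    have hev : ∀ᶠ t in 𝓝[>] (0 : ℝ), ∀ i, t * b i < X.o i + 1 - γ i := by
      refine nhdsWithin_le_nhds (eventually_all.2 fun i => ?_)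
      exact (continuous_id.mul continuous_const).continuousAt.eventually_lt continuousAt_const
        (by simpa using hgap i)
    obtain ⟨t, ht, t0⟩ := (hev.and self_mem_nhdsWithin).exists
    have t1 : 0 < t := t0
    have hJ := hfin (-(γ + t • b)) fun i => by
      have := ht i
      simp only [Pi.neg_apply, Pi.add_apply, Pi.smul_apply, smul_eq_mul]
      linarith
    refine ⟨max A 0 + (X.I fun x => Real.exp (lw D (-(γ + t • b)) x)).toReal,
      min ε₁ (t / (2 * s)), lt_min h1 (by positivity), fun ε hε hle => ?_⟩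
    have h0 : 0 < ε / (1 + C₀) := div_pos hε c1
    have h2 : ε / (1 + C₀) ≤ ε := div_le_self hε.le (by linarith)
    have h3 : 2 * s * (ε / (1 + C₀)) ≤ t := by
      have := (h2.trans hle).trans (min_le_right _ _)
      rw [le_div_iff₀ (by positivity)] at this
      linarith
    have hm : AEMeasurable (fun x => ENNReal.ofReal (Real.exp (lw D (-(γ + t • b)) x))) X.μ :=
      (hmeas ℝ _ (hcont ℝ _ (lsmo _)).rexp).ennreal_ofReal
    rw [ENNReal.ofReal_add (le_max_right _ _) ENNReal.toReal_nonneg, ENNReal.ofReal_toReal hJ]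
    calc _ ≤ X.I fun x => Real.exp (-((1 + 2 * s) * lw D γ x) - 2 * s * ρ (ε / (1 + C₀)) x) +
          Real.exp (lw D (-(γ + t • b)) x) := by
          refine hmono _ _ fun x _ => ?_
          rw [lneg, ladd, lsm]
          rcases le_total (-((1 + 2 * s) * lw D γ x) - 2 * s * ρ (ε / (1 + C₀)) x)
            (-(lw D γ x + t * lw D b x)) with h | h
          · refine le_add_of_nonneg_of_le (Real.exp_pos _).le (Real.exp_le_exp.2 ?_)
            nlinarith [l0 x]
          · refine le_add_of_le_of_nonneg (Real.exp_le_exp.2 ?_) (Real.exp_pos _).le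
            nlinarith [l0 x]
      _ = (X.I fun x => Real.exp (-((1 + 2 * s) * lw D γ x) - 2 * s * ρ (ε / (1 + C₀)) x)) +
          X.I fun x => Real.exp (lw D (-(γ + t • b)) x) := by
          unfold Cx.I
          rw [← lintegral_add_right' _ hm]
          exact lintegral_congr fun x =>
            ENNReal.ofReal_add (Real.exp_pos _).le (Real.exp_pos _).le
      _ ≤ _ := add_le_add_left ((hA _ h0 ((h2.trans hle).trans (min_le_left _ _))).trans
          (ENNReal.ofReal_le_ofReal (le_max_left _ _))) _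

end Pool.Agent.Lib.ZL
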