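import Pool.Agent.Lib.ZL.Core
import Pool.Agent.Lib.ZX.B_ENV2
import Pool.Agent.Lib.ZX.B_SV2
import Pool.Agent.Lib.ZX.B_SPL2
import Pool.Agent.Lib.ZX.B_Z2
import Pool.Agent.Lib.ZX.B_SUPX
import Pool.Agent.Lib.ZX.B_LWL
import Pool.Agent.Lib.ZX.B_ZX
import Pool.Agent.Lib.ZX.B_EXA

/-! Block ZX: the rows without hypotheses. -/

namespace Pool.Agent.Lib.ZX

open Pool.Agent.Lib.ZL

theorem st_ENV2 : St_ENV2 := bENV2 bPW st_MU st_WGT

theorem st_SV2 : St_SV2 := bSV2 bPW st_MU st_UPB st_WGT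

theorem st_SPL2 : St_SPL2 := bSPL2 bPW st_MU st_UPB st_WGT st_POG bHOL st_SV2 st_SUP

theorem st_Z2 : St_Z2 := bZ2 bPW st_MU st_UPB st_BAS st_ENV2 st_SPL2 bITR

theorem st_SUPX : St_SUPX := bSUPX bPW st_UPB st_SUP

theorem st_LWL : St_LWL := bLWL bTRF

/-- Theorem Z for the nef part of a klt pair. -/
theorem st_ZX : St_ZX :=
  bZX bPW st_MU st_UPB st_WGT st_SUP st_ENV2 st_Z2 st_SUPX st_LWL

end Pool.Agent.Lib.ZX
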