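import Pool.Agent.Lib.ZL.Blue

/-! Project ZL, block ZX: weights on the nef class itself. -/

open scoped Classical Topology ContDiff ENNReal
open Set MeasureTheory Complex Metric Filter

noncomputable section

namespace Pool.Agent.Lib.ZL

open Pool.Agent.Lib.SV (E)
open Pool.Agent.Lib.HS32 Pool.Agent.Lib.EX Pool.Agent.Lib.EXS

section defs

variable {n : ℕ} {M : Mf n} {ι : Type} [Fintype ι] [DecidableEq ι] {D : Ad M ι}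

/-- The second upper bound increases with the level. -/
def Mo (D : Ad M ι) (u : ℝ → M.X → ℝ) : Prop :=
  ∀ ε ε', 0 < ε → ε ≤ ε' → ∀ x ∈ off D, u ε x ≤ u ε' x

/-- The class of weights with two upper bounds. -/
def Cx.Cl2 (X : Cx D) (κ : ι → ℝ) (C : ℝ) (u : ℝ → M.X → ℝ) (ε : ℝ) (ρ : M.X → ℝ) : Prop :=
  X.Cl κ C ε ρ ∧ ∀ x ∈ off D, ρ x ≤ C + u ε x

/-- The weight `ρ` is almost maximal in the class of level `ε`. -/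
def Cx.Top2 (X : Cx D) (κ : ι → ℝ) (C : ℝ) (u : ℝ → M.X → ℝ) (ε η : ℝ) (ρ : M.X → ℝ) : Prop :=
  ∀ σ, X.Cl2 κ C u ε σ → X.I (fun x => Real.exp (σ x) - Real.exp (ρ x)) ≤ ENNReal.ofReal η

/-- An envelope family. -/
def Cx.Env2 (X : Cx D) (κ : ι → ℝ) (C : ℝ) (u ρ : ℝ → M.X → ℝ) : Prop :=
  (∀ ε > 0, X.Cl2 κ C u ε (ρ ε)) ∧
    ∀ η > 0, ∃ ε₀ > 0, ∀ ε > 0, ε ≤ ε₀ → X.Top2 κ C u ε₀ η (ρ ε)

/-- The normalised sections have two upper bounds. -/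
def Kl.Bd2 {X : Cx D} (K : Kl X) (C : ℝ) (u : ℝ → M.X → ℝ) : Prop := K.Bd C ∧
  ∀ j ≥ 1, ∀ U, K.Nr j U → ∀ x ∈ off D,
    X.ew (K.c * j) U x ≤ Real.exp (C + u (1 / (K.c * j)) x)

end defs

/-- Envelope families exist. -/
def St_ENV2 : Prop := ∀ (n : ℕ) (M : Mf n) [M.Cpt] (ι : Type) [Fintype ι] [DecidableEq ι]
  (D : Ad M ι) (X : Cx D) (K : Kl X) (C : ℝ) (u : ℝ → M.X → ℝ), Mo D u →
  (∀ ε ε' σ, 0 < ε → ε ≤ ε' → X.Cl2 K.κ C u ε σ → X.Cl2 K.κ C u ε' σ) ∧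
  ((∀ ε > 0, ∃ C' σ, X.Cl2 K.κ C' u ε σ) → ∃ ρ, X.Env2 K.κ C u ρ)

/-- The weight of a section. -/
def St_SV2 : Prop := ∀ (n : ℕ) (M : Mf n) [M.Cpt] (ι : Type) [Fintype ι] [DecidableEq ι]
  (D : Ad M ι) (X : Cx D) (K : Kl X) (C J η : ℝ) (u : ℝ → M.X → ℝ) (j : ℕ) (ρ : M.X → ℝ)
  (U : M.X → ℂ), 1 ≤ K.c * j → 0 ≤ J → K.Bd2 C u → X.Cl2 K.κ C u (1 / (K.c * j)) ρ →
  X.I (fun x => Real.exp (ρ x)) ≤ ENNReal.ofReal J → X.Top2 K.κ C u (1 / (K.c * j)) η ρ →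
  K.Nr j U → ∃ v : M.X → ℝ, SmO D v ∧ Psh D (fun x => v x + 1 / (K.c * j) * X.α x) ∧
    X.I (fun x => Real.exp (v x)) ≤ ENNReal.ofReal (1 + 1 / (K.c * j)) ∧
    X.I (fun x => if 2 ≤ v x - ρ x then Real.exp (v x) else 0) ≤ ENNReal.ofReal (4 * η) ∧
    ∀ x ∈ off D, v x ≤ C + 1 - lw D K.κ x ∧
      normSq (U x) * Real.exp (-X.α x) ≤ Real.exp (K.c * j * v x) ∧
      Real.exp (K.c * j * v x) ≤ normSq (U x) * Real.exp (-X.α x) + Real.exp (K.c * j * ρ x)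

/-- The splitting of a section. -/
def St_SPL2 : Prop := ∀ s > (0 : ℝ), ∀ J ≥ (0 : ℝ), ∃ η > (0 : ℝ), ∃ A : ℝ, ∀ (n : ℕ) (M : Mf n)
  [M.Cpt] (ι : Type) [Fintype ι] [DecidableEq ι] (D : Ad M ι) (X : Cx D) (K : Kl X) (C : ℝ)
  (u : ℝ → M.X → ℝ) (j : ℕ) (ρ : M.X → ℝ), s + 2 ≤ K.c * j → K.Bd2 C u →
  X.Cl2 K.κ C u (1 / (K.c * j)) ρ → X.I (fun x => Real.exp (ρ x)) ≤ ENNReal.ofReal J →
  X.Top2 K.κ C u (1 / (K.c * j)) η ρ → ∀ U, K.Nr j U → ∃ F, K.Nr j ((2 : ℂ) • F) ∧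
    ∀ b : M.X → ℝ, (∀ x ∈ off D, X.ew (K.c * j) U x ≤ b x) →
      X.I (fun x => normSq (U x - F x) * X.wt (K.c * j) s b ρ x) ≤ ENNReal.ofReal A

/-- Theorem Z for the smaller class. -/
def St_Z2 : Prop := ∀ (n : ℕ) (M : Mf n) [M.Cpt] (ι : Type) [Fintype ι] [DecidableEq ι]
  (D : Ad M ι) (X : Cx D) (K : Kl X) (C : ℝ) (u ρ : ℝ → M.X → ℝ), Mo D u → K.Bd2 C u →
  X.Env2 K.κ C u ρ →
  ∀ s > (0 : ℝ), ∃ j₀ ≥ 1, ∀ j ≥ j₀, ∃ A : ℝ, ∃ ε₁ > (0 : ℝ), ∀ ε > 0, ε ≤ ε₁ → ∀ U, K.Nr j U →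
    X.I (fun x => X.ew (K.c * j) U x ^ (1 + s) * Real.exp (-(s * ρ ε x))) ≤ ENNReal.ofReal A

/-- The uniform bound with the smaller poles. -/
def St_SUPX : Prop := ∀ (n : ℕ) (M : Mf n) [M.Cpt] (ι : Type) [Fintype ι] [DecidableEq ι]
  (D : Ad M ι) (X : Cx D) (K : Kl X) (ν a : ι → ℤ),
  (∀ (j : ℕ) U, Mer D (K.P j) U → Mer D (fun i => j * ν i + a i) U) →
  ∃ C, ∀ C', C ≤ C' → K.Bd2 C' fun ε x => -lw D (fun i => ν i / K.c + ε * (a i - X.e i)) x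

/-- The curvature of the model functions is bounded. -/
def St_LWL : Prop := ∀ (n : ℕ) (M : Mf n) [M.Cpt] (ι : Type) [Fintype ι] [DecidableEq ι]
  (D : Ad M ι) (X : Cx D) (b : ι → ℝ), ∃ C, 0 ≤ C ∧ Psh D fun x => lw D b x + C * X.α x

/-- Theorem Z on the nef class. -/
def St_ZX : Prop := ∀ (n : ℕ) (M : Mf n) [M.Cpt] (ι : Type) [Fintype ι] [DecidableEq ι]
  (D : Ad M ι) (X : Cx D) (K : Kl X) (ν a : ι → ℤ), ν ≤ K.π → (∀ i, (X.e i : ℤ) ≤ a i) →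
  (∀ j : ℕ, Gens D fun i => j * ν i + X.e i) →
  (∀ (j : ℕ) U, Mer D (K.P j) U → Mer D (fun i => j * ν i + a i) U) →
  ∃ (C : ℝ) (ρ : ℝ → M.X → ℝ), (∀ ε > 0, X.Cl (fun i => ν i / K.c) C ε (ρ ε)) ∧
    ∀ s > (0 : ℝ), ∃ A : ℝ, ∃ ε₁ > (0 : ℝ), ∀ ε > 0, ε ≤ ε₁ →
      X.I (fun x => Real.exp (-((1 + s) * lw D (fun i => ν i / K.c) x) - s * ρ ε x)) ≤
        ENNReal.ofReal A

/-- Exceptional poles drop for sections of pulled back bundles. -/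
def St_EXA : Prop := ∀ (n : ℕ) (M : Mf n) [M.Cpt] (ι : Type) [Fintype ι] [DecidableEq ι]
  (D : Ad M ι) (k a : ι → ℕ) (ex : Set ι) (B : D.A → Bl D k ex) (B' : D.A → Bl D a ex),
  (D.All fun b z => (D.e b).symm z ∈ (B b).W) → (∀ b, (B b).W ⊆ (B' b).W) →
  ∀ (j : ℕ) (Q : ι → ℤ) (U : M.X → ℂ), (∀ i ∉ ex, Q i ≤ j * k i + a i) → Mer D Q U →
    Mer D (fun i => j * k i + a i) U

end Pool.Agent.Lib.ZL
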